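import Pool.Agent.H92.KST.Targets

/-!
# Row AV of board kst_modules: Kaplansky, Theorem 124
-/

set_option autoImplicit false

universe u

namespace Pool.Agent.H41.KST

open Pool.Agent.H92.KST

theorem av_aux {R : Type u} [CommRing R] (A B : Finset (Ideal R)) (x : R) (I : Ideal R)
    (hAp : ∀ P ∈ A, P.IsPrime) (hBp : ∀ P ∈ B, P.IsPrime)
    (hI : ∀ P ∈ B, ¬ I ≤ P) (hAB : ∀ Q ∈ A, ∀ P ∈ B, ¬ Q ≤ P) :
    ∃ c ∈ I, (∀ Q ∈ A, c ∈ Q) ∧ (∀ P ∈ B, c ∉ P) := by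
  classical
  have hnot : ¬ ∃ P ∈ B, I * (∏ Q ∈ A, Q) ≤ P := by
    rintro ⟨P, hPB, hJP⟩
    have hPp : P.IsPrime := hBp P hPB
    rcases hPp.mul_le.1 hJP with h | h
    · exact hI P hPB h
    · obtain ⟨Q, hQA, hQP⟩ := hPp.prod_le.1 h
      exact hAB Q hQA P hPB hQP
  have hns : ¬ (((I * (∏ Q ∈ A, Q) : Ideal R) : Set R) ⊆
      ⋃ P ∈ (↑B : Set (Ideal R)), ((id P : Ideal R) : Set R)) := by
    intro hsub
    exact hnot ((Ideal.subset_union_prime (s := B) (f := id) (⊥ : Ideal R) (⊥ : Ideal R)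
      (fun P hP _ _ => hBp P hP) (I := I * (∏ Q ∈ A, Q))).1 hsub)
  obtain ⟨c, hcJ, hc⟩ := Set.not_subset.1 hns
  refine ⟨c, Ideal.mul_le_left hcJ, ?_, ?_⟩
  · intro Q hQ
    have h1 : I * (∏ Q ∈ A, Q) ≤ ∏ Q ∈ A, Q := Ideal.mul_le_right
    have h2 : (∏ Q ∈ A, Q) ≤ A.inf id := Ideal.prod_le_inf
    have h3 : A.inf id ≤ Q := Finset.inf_le hQ
    exact h3 (h2 (h1 hcJ))
  · intro P hP hcP
    apply hc
    simp only [Set.mem_iUnion]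
    exact ⟨P, Finset.mem_coe.2 hP, hcP⟩

theorem av_main {R : Type u} [CommRing R] (Ps : Set (Ideal R)) (hfin : Ps.Finite)
    (hprime : ∀ P ∈ Ps, P.IsPrime) (x : R) (I : Ideal R) (hI : ∀ P ∈ Ps, ¬ I ≤ P) :
    ∃ c ∈ I, ∀ P ∈ Ps, x + c ∉ P := by
  classical
  have hbelow : ∀ P ∈ Ps, ∃ Q, Maximal (fun Q => Q ∈ Ps) Q ∧ P ≤ Q := by
    intro P hP
    obtain ⟨Q, hPQ, hQ⟩ := hfin.exists_le_maximal hP
    exact ⟨Q, hQ, hPQ⟩
  obtain ⟨c, hcI, hcA, hcB⟩ := av_aux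
    (hfin.toFinset.filter fun Q => Maximal (fun Q => Q ∈ Ps) Q ∧ x ∉ Q)
    (hfin.toFinset.filter fun Q => Maximal (fun Q => Q ∈ Ps) Q ∧ x ∈ Q) x I
    (fun P hP => hprime P (hfin.mem_toFinset.1 (Finset.mem_filter.1 hP).1))
    (fun P hP => hprime P (hfin.mem_toFinset.1 (Finset.mem_filter.1 hP).1))
    (fun P hP => hI P (hfin.mem_toFinset.1 (Finset.mem_filter.1 hP).1))
    (fun Q hQ P hP hQP => by
      have hQ' := (Finset.mem_filter.1 hQ).2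
      have hP' := Finset.mem_filter.1 hP
      exact hQ'.2 ((hQ'.1.le_of_ge (hfin.mem_toFinset.1 hP'.1) hQP) hP'.2.2))
  refine ⟨c, hcI, fun P hP hxc => ?_⟩
  obtain ⟨Q, hQM, hPQ⟩ := hbelow P hP
  have hxcQ : x + c ∈ Q := hPQ hxc
  have hQf : Q ∈ hfin.toFinset := hfin.mem_toFinset.2 hQM.prop
  by_cases hxQ : x ∈ Q
  · exact hcB Q (Finset.mem_filter.2 ⟨hQf, hQM, hxQ⟩) ((Q.add_mem_iff_right hxQ).1 hxcQ)
  · exact hxQ ((Q.add_mem_iff_left (hcA Q (Finset.mem_filter.2 ⟨hQf, hQM, hxQ⟩))).1 hxcQ)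

theorem pf_AV : T_AV.{u} :=
  fun R _ Ps hfin hprime x I hI => av_main Ps hfin hprime x I hI

end Pool.Agent.H41.KST
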